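import Mathlib
import Pool.Agent.R261.GevZero
import Pool.Agent.R261.PeakExample

/-!
# MP_129fce_an: peak sets for `A_α` which are not zero sets for `G_α`

For every `0 < α ≤ 1` there is a countable closed subset `E` of the circle which is a peak set for
the analytic Lipschitz class `A_α` but not a zero set for the Gevrey class `G_α`. Hence
`P_α ≠ Z(G_α)` for every `α` in `(0, 1]`.

For `α < 1` the set consists of `1` and of finitely many points `ζ_j` in each arc
`[4^(-n), 2 * 4^(-n)]`; the peak function is `1 - 1 / (2 G)` with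
`G z = 1 / (1 - z) + ∑ 1 / (w_j ^ α + w_j / c_j)`, `w_j = 1 - z / ζ_j`.
-/

set_option autoImplicit false

open Set Filter Topology Complex Metric

namespace Pool.Agent.Results.MP_129fce_an.PeakNotGevreyZero

/-- The class `A_α`: functions analytic in the open disc, continuous on the closed disc and
satisfying a Lipschitz condition of order `α` on the circle. -/
def ClassA (α : ℝ) (f : ℂ → ℂ) : Prop :=
  DifferentiableOn ℂ f (ball 0 1) ∧ ContinuousOn f (closedBall 0 1) ∧
    ∃ C : ℝ, ∀ z ∈ sphere (0 : ℂ) 1, ∀ w ∈ sphere (0 : ℂ) 1, ‖f z - f w‖ ≤ C * ‖z - w‖ ^ α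

/-- `E` is a peak set for `A_α`. -/
def IsPeakSet (α : ℝ) (E : Set ℂ) : Prop :=
  ∃ f : ℂ → ℂ, ClassA α f ∧ (∀ z ∈ E, f z = 1) ∧ ∀ z ∈ sphere (0 : ℂ) 1, z ∉ E → ‖f z‖ < 1

/-- The Gevrey class `G_α`: functions analytic in the disc with
`|f^(n)| ≤ C^(n+1) (n!)^(1+1/α)` there for all `n`. -/
def ClassG (α : ℝ) (f : ℂ → ℂ) : Prop :=
  DifferentiableOn ℂ f (ball 0 1) ∧
    ∃ C : ℝ, ∀ n : ℕ, ∀ z ∈ ball (0 : ℂ) 1,
      ‖iteratedDeriv n f z‖ ≤ C ^ (n + 1) * (n.factorial : ℝ) ^ (1 + 1 / α)

/-- `E` is a zero set for `G_α`: some `f` in `G_α`, not identically zero in the disc, has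
`f^(n) = 0` on `E` for all `n`, that is, `f^(n)(z) → 0` as `z → ζ` in the disc, for `ζ` in `E`. -/
def IsZeroSet (α : ℝ) (E : Set ℂ) : Prop :=
  ∃ f : ℂ → ℂ, ClassG α f ∧ (∃ z ∈ ball (0 : ℂ) 1, f z ≠ 0) ∧
    ∀ n : ℕ, ∀ ζ ∈ E, Tendsto (iteratedDeriv n f) (𝓝[ball 0 1] ζ) (𝓝 0)

/-- **Theorem.** For every `0 < α ≤ 1` there is a countable closed subset of the circle which is a
peak set for `A_α` and not a zero set for `G_α`. -/
theorem result : ∀ α : ℝ, 0 < α → α ≤ 1 → ∃ E : Set ℂ, E ⊆ sphere 0 1 ∧ IsClosed E ∧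
    E.Countable ∧ IsPeakSet α E ∧ ¬ IsZeroSet α E := by
  intro α hα0 hα1
  rcases hα1.lt_or_eq with hα1 | rfl
  · obtain ⟨J, X, m0, hEc, hm0, hX⟩ := Pool.Agent.R261.PeakExample.exists_config hα0 hα1
    obtain ⟨f, ⟨hf1, hf2, C, hC⟩, hf3, hf4⟩ := X.peak hα0 hα1
    refine ⟨X.E, X.E_sub, X.E_closed, hEc, ⟨f, ⟨hf1, hf2, C, hC⟩, hf3, hf4⟩, ?_⟩
    rintro ⟨g, ⟨hg, C', hC'⟩, hnz, hv⟩
    obtain ⟨B, hB⟩ := Pool.Agent.R261.GevZero.integral_bound hα0 X.E_sub X.E_compact
      X.E_nonempty hg hC' hnz hv
    have hρ := Pool.Agent.R261.PeakExample.ρ_pos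
    have hN : ∀ n, (0 : ℝ) < Pool.Agent.R261.PeakExample.Nn α (n + m0) := fun n => by
      have := Pool.Agent.R261.PeakExample.N_pos hα0 hα1 (n := n + m0) (by omega)
      exact_mod_cast this
    have hs := Pool.Agent.R261.GevZero.summable_of_bound hα0 X.E_sub X.E_nonempty hB
      (fun n => Pool.Agent.R261.PeakExample.ρ (n + m0))
      (fun n => 2 * Pool.Agent.R261.PeakExample.ρ (n + m0))
      (fun n => Pool.Agent.R261.PeakExample.ρ (n + m0) /
        Pool.Agent.R261.PeakExample.Nn α (n + m0))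
      (fun n => (hρ _).le) (fun n => by
        have := hρ (n + m0)
        linarith) (fun n => by
        have := Pool.Agent.R261.PeakExample.ρ_le (n := n + m0) (by omega)
        have := Real.pi_gt_three
        linarith) (fun n => by
        have h1 := Pool.Agent.R261.PeakExample.ρ_lt (show n + m0 < n + 1 + m0 by omega)
        have := hρ (n + 1 + m0)
        linarith) (fun n => div_pos (hρ _) (hN n)) (fun n θ hθ => hX (n + m0) (by omega) θ hθ)
    have hs' : Summable fun n : ℕ => 1 / ((n + m0 : ℕ) : ℝ) := by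
      refine Summable.of_nonneg_of_le (fun n => by positivity) (fun n => ?_) hs
      have h1 := Pool.Agent.R261.PeakExample.diverge hα0 hα1 (n := n + m0) (by omega)
      refine h1.trans (le_of_eq ?_)
      congr 1
      ring
    exact Real.not_summable_one_div_natCast ((summable_nat_add_iff m0).1 hs')
  · -- `α = 1`: the set `{1}`
    have hE : ({1} : Set ℂ) ⊆ sphere 0 1 := by simp
    refine ⟨{1}, hE, isClosed_singleton, countable_singleton 1,
      ⟨fun z => (1 + z) / 2, ⟨?_, ?_, 1, ?_⟩, ?_, ?_⟩, ?_⟩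
    · exact ((differentiable_id.const_add 1).div_const 2).differentiableOn
    · exact ((continuous_const.add continuous_id).div_const 2).continuousOn
    · intro z _ w _
      have e : (1 + z) / 2 - (1 + w) / 2 = (z - w) / 2 := by ring
      rw [e, norm_div, Real.rpow_one, one_mul, Complex.norm_ofNat]
      linarith [norm_nonneg (z - w)]
    · rintro z rfl
      norm_num
    · intro z hz hz1
      have hz1' : z ≠ 1 := hz1
      rw [mem_sphere, dist_zero_right] at hz
      rw [norm_div, Complex.norm_ofNat, div_lt_one (by norm_num)]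
      refine lt_of_le_of_ne ((norm_add_le _ _).trans (by rw [hz, norm_one]; norm_num)) ?_
      intro h
      have h1 : ‖1 + z‖ ^ 2 = 4 := by rw [h]; norm_num
      have h2 : ‖z‖ ^ 2 = 1 := by rw [hz]; norm_num
      rw [← normSq_eq_norm_sq, normSq_apply] at h1 h2
      simp only [add_re, one_re, add_im, one_im, zero_add] at h1
      have h3 : z.re = 1 := by nlinarith
      have h4 : z.im = 0 := by
        rw [h3] at h2
        nlinarith
      exact hz1' (Complex.ext h3 h4)
    · rintro ⟨f, ⟨hf, C, hC⟩, hnz, hv⟩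
      obtain ⟨B, hB⟩ := Pool.Agent.R261.GevZero.integral_bound hα0 hE isCompact_singleton
        (singleton_nonempty 1) hf hC hnz hv
      have hs := Pool.Agent.R261.GevZero.summable_of_bound hα0 hE (singleton_nonempty 1) hB
        (fun n => (1 / 2) ^ (n + 1)) (fun n => (1 / 2) ^ n) (fun n => (1 / 2) ^ n)
        (fun n => by positivity) (fun n => by
          simp only [pow_succ]
          have : (0 : ℝ) < (1 / 2) ^ n := by positivity
          linarith) (fun n => by
          have h1 : ((1 : ℝ) / 2) ^ n ≤ 1 := pow_le_one₀ (by norm_num) (by norm_num)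
          have := Real.pi_gt_three
          linarith) (fun n => le_rfl) (fun n => by positivity) (fun n θ hθ => by
          refine (infDist_le_dist_of_mem (mem_singleton 1)).trans ?_
          have h1 : ((1 : ℝ) / 2) ^ n ≤ 1 := pow_le_one₀ (by norm_num) (by norm_num)
          have h0 : 0 ≤ θ := le_trans (by positivity) hθ.1
          have h2 := Pool.Agent.R261.PeakExample.chord (θ := θ) (φ := 0)
            (by rw [sub_zero, abs_of_nonneg h0]; exact hθ.2.trans h1)
          have e : exp (((0 : ℝ) : ℂ) * I) = 1 := by simp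
          have e1 : circleMap 0 1 θ = exp (θ * I) := by simp [circleMap]
          rw [e, sub_zero, abs_of_nonneg h0] at h2
          rw [dist_eq_norm, e1]
          exact h2.2.trans hθ.2)
      have e : (fun n : ℕ => ((1 / 2 : ℝ) ^ n - (1 / 2) ^ (n + 1)) * ((1 / 2 : ℝ) ^ n) ^ (-1 : ℝ)) =
          fun _ => (1 / 2 : ℝ) := by
        funext n
        have : (0 : ℝ) < (1 / 2) ^ n := by positivity
        rw [Real.rpow_neg_one, pow_succ]
        field_simp
        ring
      rw [e] at hs
      have := (summable_const_iff (1 / 2 : ℝ)).1 hs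
      norm_num at this

end Pool.Agent.Results.MP_129fce_an.PeakNotGevreyZero
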